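import Pool.Agent.G02.StmtsR

/-!
# Squad G02, row IXQ: the order of `W(ℚ) / 2`
-/

set_option autoImplicit false

namespace Pool.Agent.G02.H35

open Polynomial Pool.Agent.NJ Pool.Agent.GT.F

noncomputable section

theorem d0_neg {K : Type} [Field K] [DecidableEq K] {W : WeierstrassCurve K} {e b c : K}
    {P : W.toAffine.Point} (h : D0 W e b c P) : D0 W e b c (-P) := by
  rcases P with _ | ⟨x, y, hP⟩
  · exact h
  · exact h

theorem dl_neg [DecidableEq ℚ] {W : WeierstrassCurve ℚ} {L : Type} [Field L] [Algebra ℚ L] {ρ : L}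
    {c : ℚ} {P : W.toAffine.Point} (h : DL W ρ c P) : DL W ρ c (-P) := by
  rcases P with _ | ⟨x, y, hP⟩
  · exact h
  · exact h

theorem sq_cancel {K : Type} [Field K] {c x : K} (hc : c ≠ 0) (h : IsSquare (c * c * x)) :
    IsSquare (1 * x) := by
  obtain ⟨r, hr⟩ := h
  refine ⟨r / c, ?_⟩
  field_simp
  linear_combination hr

theorem d0_one {K : Type} [Field K] {W : WeierstrassCurve K} {e b c : K}
    {P : W.toAffine.Point} (hc : c ≠ 0) (h : D0 W e b (c * c) P) : D0 W e b 1 P := by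
  rcases P with _ | ⟨x, y, hP⟩
  · exact ⟨1, by ring⟩
  · exact ⟨fun hx => sq_cancel hc (h.1 hx), fun hx => sq_cancel hc (h.2 hx)⟩

theorem dl_one {W : WeierstrassCurve ℚ} {L : Type} [Field L] [Algebra ℚ L] {ρ : L}
    {c : ℚ} {P : W.toAffine.Point} (hc : c ≠ 0) (h : DL W ρ (c * c) P) : DL W ρ 1 P := by
  have hc' : algebraMap ℚ L c ≠ 0 := by
    rw [Ne, map_eq_zero_iff _ (algebraMap ℚ L).injective]
    exact hc
  rcases P with _ | ⟨x, y, hP⟩
  · exact ⟨1, by rw [map_one, one_mul]⟩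
  · show IsSquare (algebraMap ℚ L 1 * (algebraMap ℚ L x - ρ))
    have h' : IsSquare (algebraMap ℚ L (c * c) * (algebraMap ℚ L x - ρ)) := h
    rw [map_mul] at h'
    rw [map_one]
    exact sq_cancel hc' h'

/-- each point has a first class in `S ∪ b S` -/
theorem cls1 [DecidableEq ℚ] {W : WeierstrassCurve ℚ} {e a b : ℚ} (hR : Rt1 W e a b) (hb : b ≠ 0) {S : Finset ℚ}
    (h1 : (1 : ℚ) ∈ S) (h0 : (0 : ℚ) ∉ S) (hS : Cl a b (S : Set ℚ)) (P : W.toAffine.Point) :
    ∃ c, c ∈ S ∪ S.image (fun s => b * s) ∧ c ≠ 0 ∧ D0 W e b c P := by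
  have hb' : b ∈ S ∪ S.image (fun s => b * s) :=
    Finset.mem_union_right _ (Finset.mem_image.2 ⟨1, h1, mul_one b⟩)
  rcases P with _ | ⟨x, y, hP⟩
  · exact ⟨1, Finset.mem_union_left _ h1, one_ne_zero, ⟨1, by ring⟩⟩
  · by_cases hx : x = e
    · exact ⟨b, hb', hb, fun h => absurd hx h, fun _ => ⟨b, rfl⟩⟩
    · obtain ⟨r2, r4, r6⟩ := hR
      have heq := (WeierstrassCurve.Affine.equation_iff _ _).1 hP.1
      simp only [WeierstrassCurve.b₂, WeierstrassCurve.b₄, WeierstrassCurve.b₆] at r2 r4 r6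
      have hY : ((2 * y + W.a₁ * x + W.a₃) / 2) ^ 2 =
          (x - e) * ((x - e) ^ 2 + a * (x - e) + b) := by
        have heq' : y ^ 2 + W.a₁ * x * y + W.a₃ * y = x ^ 3 + W.a₂ * x ^ 2 + W.a₄ * x + W.a₆ := heq
        linear_combination heq' + x ^ 2 / 4 * r2 + x / 2 * r4 + 1 / 4 * r6
      obtain ⟨s, hs, hsq⟩ := hS (x - e) _ (sub_ne_zero.2 hx) hY
      have hs0 : s ≠ 0 := fun h => h0 (h ▸ hs)
      rcases hsq with hsq | hsq
      · exact ⟨s, Finset.mem_union_left _ hs, hs0, fun _ => hsq, fun h => absurd h hx⟩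
      · refine ⟨b * s, Finset.mem_union_right _ (Finset.mem_image.2 ⟨s, hs, rfl⟩),
          mul_ne_zero hb hs0, fun _ => ?_, fun h => absurd h hx⟩
        rw [mul_comm b s]
        exact hsq

/-- IXQ -/
theorem ixq (hAD1 : Ad1Stmt) (hADL : AdlStmt) (hQUA : QuaStmt) (hCL2 : Cl2Stmt)
    (hDB2 : Db2Stmt) : IxqStmt := by
  intro _ W e a b hR hb hnb hm S S' h1 h1' h0 h0' hS hS' T hT
  have hm0 : a ^ 2 - 4 * b ≠ 0 := fun h => hm (h ▸ ⟨0, by ring⟩)
  obtain ⟨L, fL, cL, aL, β, hQ⟩ := hQUA _ hm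
  set ρ : L := algebraMap ℚ L e + (β - algebraMap ℚ L a) / 2 with hρ
  have hρn : ∀ c : ℚ, ρ ≠ algebraMap ℚ L c := by
    intro c hc
    apply hQ.nr (2 * (c - e) + a)
    rw [map_add, map_mul, map_sub, map_ofNat, ← hc, hρ]
    ring
  have hρr : 4 * ρ ^ 3 + algebraMap ℚ L W.b₂ * ρ ^ 2 + 2 * algebraMap ℚ L W.b₄ * ρ +
      algebraMap ℚ L W.b₆ = 0 := by
    obtain ⟨r2, r4, r6⟩ := hR
    have h2 := congrArg (algebraMap ℚ L) r2
    have h4 := congrArg (algebraMap ℚ L) r4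
    have h6 := congrArg (algebraMap ℚ L) r6
    have hs := hQ.sq
    simp only [map_add, map_mul, map_sub, map_ofNat, map_pow, map_neg] at h2 h4 h6 hs
    rw [h2, h4, h6, hρ]
    linear_combination ((β - algebraMap ℚ L a) / 2) * hs
  classical
  choose c1 c1m c10 c1D using cls1 hR hb h1 h0 hS
  let rep : ℚ → W.toAffine.Point := fun c => if h : ∃ Q, c1 Q = c then h.choose else 0
  have hrep : ∀ P, c1 (rep (c1 P)) = c1 P := by
    intro P
    have h : ∃ Q, c1 Q = c1 P := ⟨P, rfl⟩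
    show c1 (if h : ∃ Q, c1 Q = c1 P then h.choose else 0) = c1 P
    rw [dif_pos h]
    exact h.choose_spec
  have hR1 : ∀ P, D0 W e b 1 (P + -rep (c1 P)) := by
    intro P
    have h := c1D (rep (c1 P))
    rw [hrep P] at h
    exact d0_one (c10 P) (hAD1 ℚ W e a b hR hb hm0 _ _ _ _ (c10 P) (c10 P) (c1D P) (d0_neg h))
  have hR2 : ∀ P : W.toAffine.Point, ∃ c ∈ (S' : Set ℚ), DL W ρ c (P + -rep (c1 P)) := fun P =>
    hCL2 W e a b hR hnb _ hS' h1' L β hQ _ (hR1 P)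
  choose c2 c2m c2D using hR2
  have c20 : ∀ P, c2 P ≠ 0 := fun P h => h0' (h ▸ c2m P)
  have hinj : Set.InjOn (fun P => (c1 P, c2 P)) (T : Set W.toAffine.Point) := by
    intro P hP P' hP' h
    have e1 : c1 P = c1 P' := congrArg Prod.fst h
    have e2 : c2 P = c2 P' := congrArg Prod.snd h
    have hd : P + -P' = (P + -rep (c1 P)) + -(P' + -rep (c1 P')) := by
      rw [e1]
      abel
    have d1 : D0 W e b 1 (P + -P') := by
      rw [hd]
      refine d0_one one_ne_zero (hAD1 ℚ W e a b hR hb hm0 _ _ _ _ one_ne_zero one_ne_zero (hR1 P)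
        (d0_neg (hR1 P')))
    have d2 : DL W ρ 1 (P + -P') := by
      rw [hd]
      refine dl_one (c20 P) (hADL W L ρ hρn hρr _ _ _ _ (c20 P) (c20 P) (c2D P) (dl_neg ?_))
      rw [e2]
      exact c2D P'
    obtain ⟨Q, hQQ⟩ := hDB2 W e a b hR hb hnb L β hQ _ d1 d2
    refine hT P hP P' hP' ⟨Q, ?_⟩
    rw [← hQQ]
    abel
  have hc1 : T.card ≤ ((S ∪ S.image (fun s => b * s)) ×ˢ S').card :=
    Finset.card_le_card_of_injOn _ (fun P _ => Finset.mem_coe.2
      (Finset.mem_product.2 ⟨c1m P, c2m P⟩)) hinj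
  rw [Finset.card_product] at hc1
  have hc2 : (S ∪ S.image (fun s => b * s)).card ≤ 2 * S.card := by
    have := Finset.card_union_le S (S.image (fun s => b * s))
    have h3 : (S.image (fun s => b * s)).card ≤ S.card := Finset.card_image_le
    omega
  calc T.card ≤ _ := hc1
    _ ≤ 2 * S.card * S'.card := Nat.mul_le_mul_right _ hc2
    _ = 2 * (S.card * S'.card) := Nat.mul_assoc _ _ _

end

end Pool.Agent.G02.H35
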